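import Pool.Agent.Lib.LD.Def

/-!
# LD, S6: two separations, a side which misses the other cut
-/

set_option autoImplicit false

namespace H96LD

open Finset H98M LD

variable {V : Type*} [DecidableEq V]

/-- A nonempty set `K` of the 2-connected graph with all neighbours in `K` or equal to `w` is
everything but `w`. -/
private theorem no_leaf {E : Finset (Sym2 V)} {Y : Finset V} (hT : TCY E Y) {K : Finset V}
    {w z : V} (hw : w ∈ Y) (hK : K ⊆ Y) (hK0 : K.Nonempty) (hwK : w ∉ K) (hz : z ∈ Y)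
    (hzK : z ∉ K) (hzw : z ≠ w) (hN : ∀ a ∈ K, ∀ b ∈ Y, b ∉ K → b ≠ w → s(a, b) ∉ E) : False := by
  refine hT.conn' w hw ?_
  refine ⟨K, (Y.erase w) \ K, hK0, ⟨z, ?_⟩, disjoint_sdiff, ?_, ?_⟩
  · simp [hz, hzK, hzw]
  · ext a
    simp only [mem_union, mem_sdiff, mem_erase]
    constructor
    · rintro (h | h)
      · exact ⟨fun e => hwK (e ▸ h), hK h⟩
      · exact h.1
    · intro h
      by_cases ha : a ∈ K
      · exact Or.inl ha
      · exact Or.inr ⟨h, ha⟩
  · intro a ha b hb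
    simp only [mem_sdiff, mem_erase] at hb
    exact hN a ha b hb.1.2 hb.2 hb.1.1

/-- Half of `side`: if the point `w` of the second cut lies in `P`, everything lies in `P`. -/
private theorem side_aux {E : Finset (Sym2 V)} {Y : Finset V} {x y w w' : V} {P Q C D : Finset V}
    (hT : TCY E Y) (hs : Sep E Y x y P Q) (h' : Sep E Y w w' C D) (hx : x ∉ C) (hy : y ∉ C)
    (hw : w ∈ P) : C ⊆ P ∧ w' ∉ Q := by
  have hCY : C ⊆ Y := by
    intro a ha
    rw [← h'.eq]
    simp [ha]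
  have hDY : D ⊆ Y := by
    intro a ha
    rw [← h'.eq]
    simp [ha]
  have hwY : w ∈ Y := by rw [← h'.eq]; simp
  have hw'Y : w' ∈ Y := by rw [← h'.eq]; simp
  have hwQ : w ∉ Q := fun h => (Finset.disjoint_left.1 hs.dis) hw h
  have hCPQ : ∀ a ∈ C, a ∉ Q → a ∈ P := by
    intro a ha haQ
    have h1 := hCY ha
    rw [← hs.eq] at h1
    simp only [mem_insert, mem_union] at h1
    rcases h1 with h1 | h1 | h1 | h1
    · exact absurd (h1 ▸ ha) hx
    · exact absurd (h1 ▸ ha) hy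
    · exact h1
    · exact absurd h1 haQ
  have hCQ : ∀ a ∈ C, a ∉ Q := by
    by_contra hcon
    push Not at hcon
    obtain ⟨a0, ha0, ha0Q⟩ := hcon
    refine no_leaf hT (K := C.filter (· ∈ Q)) (w := w') (z := w) hw'Y
      (fun a ha => hCY (mem_filter.1 ha).1) ⟨a0, by simp [ha0, ha0Q]⟩
      (fun h => h'.yP (mem_filter.1 h).1) hwY (fun h => hwQ (mem_filter.1 h).2) h'.ne ?_
    intro a ha b hb hbK hbw' hab
    obtain ⟨haC, haQ⟩ := mem_filter.1 ha
    rw [← h'.eq] at hb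
    simp only [mem_insert, mem_union] at hb
    rcases hb with hb | hb | hb | hb
    · subst hb
      exact hs.noE _ hw _ haQ (by rw [Sym2.eq_swap]; exact hab)
    · exact hbw' hb
    · have hbQ : b ∉ Q := fun h => hbK (mem_filter.2 ⟨hb, h⟩)
      exact hs.noE _ (hCPQ b hb hbQ) _ haQ (by rw [Sym2.eq_swap]; exact hab)
    · exact h'.noE _ haC _ hb hab
  have hCP : C ⊆ P := fun a ha => hCPQ a ha (hCQ a ha)
  refine ⟨hCP, fun hw'Q => ?_⟩
  refine no_leaf hT (K := C) (w := w) (z := w') hwY hCY h'.P0 h'.xP hw'Y h'.yP h'.ne.symm ?_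
  intro a ha b hb hbK hbw hab
  rw [← h'.eq] at hb
  simp only [mem_insert, mem_union] at hb
  rcases hb with hb | hb | hb | hb
  · exact hbw hb
  · subst hb
    exact hs.noE _ (hCP ha) _ hw'Q hab
  · exact hbK hb
  · exact h'.noE _ ha _ hb hab

/-- (S6) If the side `C` of the separation at `{u, v}` misses `x` and `y` and `{u, v}` is not
`{x, y}`, then `C` and the points of `{u, v}` off `{x, y}` lie in one side. -/
theorem side {E : Finset (Sym2 V)} {Y : Finset V} {x y u v : V} {P Q C D : Finset V}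
    (hT : TCY E Y) (hs : Sep E Y x y P Q) (h' : Sep E Y u v C D) (hx : x ∉ C) (hy : y ∉ C)
    (hne : ¬ ((u = x ∧ v = y) ∨ (u = y ∧ v = x))) :
    (C ⊆ P ∧ u ∉ Q ∧ v ∉ Q) ∨ (C ⊆ Q ∧ u ∉ P ∧ v ∉ P) := by
  have huY : u ∈ Y := by rw [← h'.eq]; simp
  have hvY : v ∈ Y := by rw [← h'.eq]; simp
  have hPQ : ∀ a ∈ P, a ∉ Q := fun a h1 h2 => (Finset.disjoint_left.1 hs.dis) h1 h2
  have huc := huY
  have hvc := hvY
  rw [← hs.eq] at huc hvc
  simp only [mem_insert, mem_union] at huc hvc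
  have key : ∀ {w w' : V}, Sep E Y w w' C D → w ∈ P → C ⊆ P ∧ w' ∉ Q := fun h hw =>
    side_aux hT hs h hx hy hw
  have key' : ∀ {w w' : V}, Sep E Y w w' C D → w ∈ Q → C ⊆ Q ∧ w' ∉ P := fun h hw =>
    side_aux hT hs.symm h hx hy hw
  rcases huc with hu | hu | hu | hu
  · rcases hvc with hv | hv | hv | hv
    · exact absurd (hu.trans hv.symm) h'.ne
    · exact absurd (Or.inl ⟨hu, hv⟩) hne
    · obtain ⟨h1, h2⟩ := key h'.flip hv
      exact Or.inl ⟨h1, h2, hPQ v hv⟩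
    · obtain ⟨h1, h2⟩ := key' h'.flip hv
      exact Or.inr ⟨h1, h2, fun h => hPQ v h hv⟩
  · rcases hvc with hv | hv | hv | hv
    · exact absurd (Or.inr ⟨hu, hv⟩) hne
    · exact absurd (hu.trans hv.symm) h'.ne
    · obtain ⟨h1, h2⟩ := key h'.flip hv
      exact Or.inl ⟨h1, h2, hPQ v hv⟩
    · obtain ⟨h1, h2⟩ := key' h'.flip hv
      exact Or.inr ⟨h1, h2, fun h => hPQ v h hv⟩
  · obtain ⟨h1, h2⟩ := key h' hu
    exact Or.inl ⟨h1, hPQ u hu, h2⟩
  · obtain ⟨h1, h2⟩ := key' h' hu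
    exact Or.inr ⟨h1, fun h => hPQ u h hu, h2⟩

end H96LD
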